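import Pool.Agent.W601.RP.Stm2

/-! Project RP (MP_76381c_al), part KILL2. -/

set_option autoImplicit false
open scoped Classical
open Filter Topology

namespace Pool.Agent.W765.RP

open Pool.Agent.W601.RP

theorem take_pre (q : ℕ → ℕ) {n n' : ℕ} (h : n ≤ n') : (pre q n').take n = pre q n := by
  unfold pre
  rw [← List.map_take, List.take_range, min_eq_left h]

theorem kill2 : S_BR → S_MKL → S_EXT → S_KILL2 := by
  intro hBR hMKL hEXT F c hF hinf
  -- new elements at large indices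
  have step : ∀ J : ℕ, ∃ (j' : ℕ) (q : ℕ → ℕ), J < j' ∧ q ∈ F j' ∧ ∀ j ≤ J, q ∉ F j := by
    intro J
    have hfin : (⋃ j ∈ Finset.range (J + 1), ((F j : Finset (ℕ → ℕ)) : Set (ℕ → ℕ))).Finite :=
      Set.Finite.biUnion (Finset.finite_toSet _) fun j _ => Finset.finite_toSet _
    obtain ⟨q, hq1, hq2⟩ := (hinf.sdiff hfin).nonempty
    rw [Set.mem_iUnion] at hq1
    obtain ⟨j', hj'⟩ := hq1
    have hnot : ∀ j ≤ J, q ∉ F j := by
      intro j hj hqj
      apply hq2
      rw [Set.mem_iUnion₂]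
      exact ⟨j, Finset.mem_range.mpr (Nat.lt_succ_of_le hj), hqj⟩
    refine ⟨j', q, ?_, hj', hnot⟩
    by_contra hlt
    exact hnot j' (not_lt.mp hlt) hj'
  choose jn qn hjn hqn hnew using step
  let J : ℕ → ℕ := fun m => Nat.rec 0 (fun _ x => jn x) m
  have hJs : ∀ m, J (m + 1) = jn (J m) := fun m => rfl
  have hJmono : StrictMono J := strictMono_nat_of_lt_succ fun m => by
    rw [hJs]
    exact hjn _
  let q : ℕ → (ℕ → ℕ) := fun m => qn (J m)
  have hqF : ∀ m, q m ∈ F (J (m + 1)) := fun m => by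
    rw [hJs]
    exact hqn _
  have hqne : ∀ m m', m < m' → q m ≠ q m' := by
    intro m m' hmm h
    apply hnew (J m') (J (m + 1)) (hJmono.monotone hmm)
    have : qn (J m') = q m := h.symm
    rw [this]
    exact hqF m
  have hqinj : Function.Injective q := by
    intro m m' h
    rcases lt_trichotomy m m' with h1 | h1 | h1
    · exact (hqne m m' h1 h).elim
    · exact h1
    · exact (hqne m' m h1 h.symm).elim
  have hqb : ∀ m i, q m i < M i := fun m => (hF _ _ (hqF m)).1.1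
  have hmk : ∀ m, ∃ n0 : ℕ, ∀ n, n0 ≤ n →
      GoodL (mkL (F (J (m + 1))) (c (J (m + 1))) (q m) n) ∧
      nL (mkL (F (J (m + 1))) (c (J (m + 1))) (q m) n) = n ∧
      sL (mkL (F (J (m + 1))) (c (J (m + 1))) (q m) n) = pre (q m) n ∧
      ∀ t, IsNode t → lt t = mkL (F (J (m + 1))) (c (J (m + 1))) (q m) n →
        ‖(∑ q ∈ F (J (m + 1)), c (J (m + 1)) q • x q) t‖ = 1 / 2 :=
    fun m => hMKL (F (J (m + 1))) (c (J (m + 1))) (q m) (hF _) (hqF m)
  choose b hb using hmk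
  obtain ⟨mm, nn, hmm, hnn, hbn, hne⟩ := hEXT q hqinj hqb b
  let a : ℕ → Letter := fun k => mkL (F (J (mm k + 1))) (c (J (mm k + 1))) (q (mm k)) (nn k)
  have ha : ∀ k, GoodL (a k) ∧ nL (a k) = nn k ∧ sL (a k) = pre (q (mm k)) (nn k) ∧
      ∀ t, IsNode t → lt t = a k →
        ‖(∑ q ∈ F (J (mm k + 1)), c (J (mm k + 1)) q • x q) t‖ = 1 / 2 :=
    fun k => hb (mm k) (nn k) (hbn k)
  obtain ⟨t, ht1, ht2, ht3⟩ := hBR a (fun k => (ha k).1) (by
    intro k k' hkk
    refine ⟨?_, ?_⟩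
    · rw [(ha k).2.1, (ha k').2.1]
      exact hnn hkk
    · intro h
      exfalso
      rw [(ha k).2.1, (ha k').2.2.1, (ha k).2.2.1, take_pre _ (hnn hkk).le] at h
      exact hne k k' hkk h)
  refine ⟨Set.range t, Set.infinite_range_of_injective ht1, ht2, ?_⟩
  intro m
  refine ⟨J (mm m + 1), ?_, t m, ⟨m, rfl⟩, (ha m).2.2.2 (t m) (ht3 m).1 (ht3 m).2⟩
  have h1 : m ≤ mm m := hmm.id_le m
  have h2 : mm m + 1 ≤ J (mm m + 1) := hJmono.id_le _
  omega

end Pool.Agent.W765.RP
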